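import Mathlib
import Pool.Agent.Q277.CubicAssemble

/-!
# Partial sums of a binomial-sum sequence modulo `p^2`, `p ≡ 2 (mod 3)`

With `a(n) = ∑_{j=0}^n C(n,j) C(n-j,j) C(n+j,j)` we prove, for every prime `p ≡ 2 (mod 3)` and
`m = (p+1)/3`, that `a(0) + a(1) + ... + a(p-1) ≡ 2p / C(2m,m) (mod p^2)`: the numerator in lowest
terms of the difference is divisible by `p^2`. The fact that `2p / C(2m,m)` has denominator prime
to `p` is also part of the statement.
-/

namespace Pool.Agent.Results.MP_ec79a8_nt.PartialSum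

/-- `a(n) = ∑_{j=0}^n C(n,j) C(n-j,j) C(n+j,j)`. -/
def a (n : ℕ) : ℕ :=
  ∑ j ∈ Finset.range (n + 1), n.choose j * (n - j).choose j * (n + j).choose j

/-- For every prime `p ≡ 2 (mod 3)`, with `m = (p+1)/3`:
`a(0) + ... + a(p-1) ≡ 2p / C(2m,m) (mod p^2)`. -/
theorem result (p m : ℕ) (hp : p.Prime) (h : p % 3 = 2) (hm : 3 * m = p + 1) :
    ¬ p ∣ (2 * (p : ℚ) / ((2 * m).choose m : ℚ)).den ∧
      ((p : ℤ) ^ 2) ∣
        (((∑ k ∈ Finset.range p, a k : ℕ) : ℚ) - 2 * (p : ℚ) / ((2 * m).choose m : ℚ)).num := by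
  by_cases h2 : p = 2
  · subst h2
    have hm1 : m = 1 := by omega
    subst hm1
    have e1 : (∑ k ∈ Finset.range 2, a k) = 2 := by decide
    have e2 : (2 * 1).choose 1 = 2 := by decide
    rw [e1, e2]
    norm_num
  have key : ¬ p ∣ (2 * m).choose m ∧
      ((p : ℤ) ^ 2) ∣ (((∑ k ∈ Finset.range p, a k : ℕ) : ℤ)) * ((2 * m).choose m : ℤ) - 2 * p := by
    have hodd : p % 2 = 1 := by
      rcases hp.eq_two_or_odd with h' | h'
      · exact absurd h' h2
      · exact h'
    obtain ⟨s, hs⟩ : ∃ s, p = 6 * s + 5 := ⟨(p - 5) / 6, by have := hp.two_le; omega⟩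
    have : Fact p.Prime := ⟨hp⟩
    refine ⟨?_, Q277.CubicAssemble.case_two (p := p) s (3 * s + 2) m hs rfl (by omega)⟩
    intro hd
    have h1 : p ∣ (2 * m).factorial := by
      have := Nat.choose_mul_factorial_mul_factorial (n := 2 * m) (k := m) (by omega)
      rw [← this]
      exact Dvd.dvd.mul_right (Dvd.dvd.mul_right hd _) _
    rw [hp.dvd_factorial] at h1
    omega
  obtain ⟨k1, k2⟩ := key
  have hC : ((2 * m).choose m : ℚ) ≠ 0 := by
    intro h0
    apply k1
    have : (2 * m).choose m = 0 := by exact_mod_cast h0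
    rw [this]; exact dvd_zero _
  constructor
  · intro hd
    apply k1
    have e : (2 * (p : ℚ) / ((2 * m).choose m : ℚ)) =
        Rat.divInt (2 * (p : ℤ)) (((2 * m).choose m : ℕ) : ℤ) := by
      rw [Rat.divInt_eq_div]; push_cast; rfl
    have h1 := Rat.den_dvd (2 * (p : ℤ)) (((2 * m).choose m : ℕ) : ℤ)
    rw [← e] at h1
    have h2 : (2 * (p : ℚ) / ((2 * m).choose m : ℚ)).den ∣ (2 * m).choose m := by
      exact_mod_cast h1
    exact hd.trans h2
  · obtain ⟨c, hc⟩ := k2
    refine Q277.CubicAssemble.num_dvd p hp _ c ((2 * m).choose m : ℤ) ?_ ?_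
    · intro hd; apply k1; exact_mod_cast hd
    · have hc' := congrArg (Int.cast : ℤ → ℚ) hc
      push_cast at hc' ⊢
      rw [sub_mul, div_mul_cancel₀ _ hC]
      linear_combination hc'

end Pool.Agent.Results.MP_ec79a8_nt.PartialSum
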